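import Pool.Agent.X13.Lucas.Interval

/-!
# When the lcm-type Lucas binomial coefficient equals the Lucas binomial coefficient
-/

open Finset

namespace Pool.Agent.Results.MP_763eff_nt.EqualityCriterion

/-- The Lucas sequence `U(P, Q)`: `U_0 = 0`, `U_1 = 1`, `U_{n+2} = P U_{n+1} - Q U_n`. -/
def U (P Q : ℤ) : ℕ → ℤ
  | 0 => 0
  | 1 => 1
  | (n + 2) => P * U P Q (n + 1) - Q * U P Q n

/-- The `U`-binomial coefficient `U_n U_{n-1} ⋯ U_{n-k+1} / (U_1 U_2 ⋯ U_k)`. -/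
def binomU (P Q : ℤ) (n k : ℕ) : ℚ :=
  (∏ m ∈ Finset.Ioc (n - k) n, (U P Q m : ℚ)) / ∏ m ∈ Finset.Ioc 0 k, (U P Q m : ℚ)

/-- The (positive) least common multiple of the terms `U_m`, `m ∈ s`. -/
def lcmOf (P Q : ℤ) (s : Finset ℕ) : ℕ := s.lcm fun m => (U P Q m).natAbs

/-- The lcm-analogue `lcm (U_n, …, U_{n-k+1}) / lcm (U_1, …, U_k)`. -/
def lcmBinomU (P Q : ℤ) (n k : ℕ) : ℚ :=
  (lcmOf P Q (Finset.Ioc (n - k) n) : ℚ) / (lcmOf P Q (Finset.Ioc 0 k) : ℚ)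

/-- The standing assumptions on `(P, Q)`: `P Q ≠ 0`, `P² - 4 Q ≠ 0`, `gcd(P, Q) = 1`, and the ratio
of the roots `α, β` of `x² - P x + Q` is not a root of unity. -/
def Admissible (P Q : ℤ) : Prop :=
  P * Q ≠ 0 ∧ P ^ 2 - 4 * Q ≠ 0 ∧ IsCoprime P Q ∧
    ∀ α β : ℂ, α + β = P → α * β = Q → ∀ n : ℕ, 1 ≤ n → (α / β) ^ n ≠ 1

lemma U_eq (P Q : ℤ) : ∀ n, U P Q n = X13.Lucas.U P Q n ∧ U P Q (n + 1) = X13.Lucas.U P Q (n + 1) := by
  intro n
  induction n with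
  | zero => exact ⟨rfl, rfl⟩
  | succ n ih =>
    refine ⟨ih.2, ?_⟩
    rw [show n + 1 + 1 = n + 2 by ring, U, X13.Lucas.U, ih.1, ih.2]

lemma binet (P Q : ℤ) (α β : ℂ) (h1 : α + β = P) (h2 : α * β = Q) :
    ∀ n, (α - β) * (U P Q n : ℂ) = α ^ n - β ^ n ∧
      (α - β) * (U P Q (n + 1) : ℂ) = α ^ (n + 1) - β ^ (n + 1) := by
  intro n
  induction n with
  | zero => simp [U]
  | succ n ih =>
    refine ⟨ih.2, ?_⟩
    rw [show n + 1 + 1 = n + 2 by ring, U]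
    push_cast
    rw [← h1, ← h2]
    calc (α - β) * ((α + β) * (U P Q (n + 1) : ℂ) - α * β * (U P Q n : ℂ))
        = (α + β) * ((α - β) * (U P Q (n + 1) : ℂ)) - α * β * ((α - β) * (U P Q n : ℂ)) := by ring
      _ = _ := by rw [ih.1, ih.2]; ring

lemma U_ne_zero {P Q : ℤ} (h : Admissible P Q) (n : ℕ) (hn : 1 ≤ n) : U P Q n ≠ 0 := by
  obtain ⟨hPQ, hD, _, hroot⟩ := h
  obtain ⟨s, hs⟩ := IsAlgClosed.exists_pow_nat_eq ((P : ℂ) ^ 2 - 4 * Q) (n := 2) (by norm_num)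
  set α := ((P : ℂ) + s) / 2 with hα
  set β := ((P : ℂ) - s) / 2 with hβ
  have h1 : α + β = P := by rw [hα, hβ]; ring
  have h2 : α * β = Q := by
    rw [hα, hβ]
    linear_combination (-1 / 4 : ℂ) * hs
  intro h0
  have hb := (binet P Q α β h1 h2 n).1
  rw [h0, Int.cast_zero, mul_zero] at hb
  have hβ0 : β ≠ 0 := by
    intro h3
    rw [h3, mul_zero] at h2
    apply hPQ
    have : (Q : ℂ) = 0 := h2.symm
    rw [Int.cast_eq_zero] at this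
    rw [this, mul_zero]
  apply hroot α β h1 h2 n hn
  rw [div_pow, div_eq_one_iff_eq (pow_ne_zero _ hβ0)]
  exact (sub_eq_zero.1 hb.symm)

/-- **Criterion.** For admissible `(P, Q)` and `1 ≤ k ≤ n`, the two coefficients are equal if and
only if `binomU` is positive and `k mod d ≤ n mod d` for every `2 ≤ d ≤ k` such that `U_d` does
not divide `lcm (U_1, …, U_{d-1})`. -/
theorem result (P Q : ℤ) (h : Admissible P Q) (n k : ℕ) (hk : 1 ≤ k) (hkn : k ≤ n) :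
    lcmBinomU P Q n k = binomU P Q n k ↔
      0 < binomU P Q n k ∧
        ∀ d : ℕ, 2 ≤ d → d ≤ k →
          ¬ (U P Q d).natAbs ∣ lcmOf P Q (Finset.Ioc 0 (d - 1)) → k % d ≤ n % d := by
  set u : ℕ → ℕ := fun m => (U P Q m).natAbs with hu
  have hne : ∀ m, 1 ≤ m → u m ≠ 0 := fun m hm => Int.natAbs_ne_zero.2 (U_ne_zero h m hm)
  have hgcd : ∀ a b, Nat.gcd (u a) (u b) = u (Nat.gcd a b) := by
    intro a b
    have := X13.Lucas.gcd_U h.2.2.1 a b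
    simp only [hu]
    rw [(U_eq P Q a).1, (U_eq P Q b).1, (U_eq P Q (Nat.gcd a b)).1]
    exact this
  have hcrit := X13.Lucas.criterion u (by simp [hu, U]) hne hgcd n k hk hkn
  have hI : ∀ m ∈ Finset.Ioc (n - k) n, 1 ≤ m := by
    intro m hm
    rw [Finset.mem_Ioc] at hm
    omega
  have hK : ∀ m ∈ Finset.Ioc 0 k, 1 ≤ m := by
    intro m hm
    rw [Finset.mem_Ioc] at hm
    omega
  have hlcm0 : ∀ s : Finset ℕ, (∀ m ∈ s, 1 ≤ m) → (0 : ℚ) < (lcmOf P Q s : ℚ) := by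
    intro s hs
    have : lcmOf P Q s ≠ 0 := by
      unfold lcmOf
      rw [Ne, Finset.lcm_eq_zero_iff]
      rintro ⟨x, hx, hx0⟩
      exact hne x (hs x hx) hx0
    exact_mod_cast Nat.pos_of_ne_zero this
  have habs : ∀ s : Finset ℕ, |∏ m ∈ s, (U P Q m : ℚ)| = ((∏ m ∈ s, u m : ℕ) : ℚ) := by
    intro s
    rw [Finset.abs_prod, Nat.cast_prod]
    refine Finset.prod_congr rfl fun m _ => ?_
    rw [← Int.cast_abs, Int.abs_eq_natAbs, Int.cast_natCast]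
  have hprodK : (0 : ℚ) < ((∏ m ∈ Finset.Ioc 0 k, u m : ℕ) : ℚ) := by
    have : ∏ m ∈ Finset.Ioc 0 k, u m ≠ 0 := Finset.prod_ne_zero_iff.2 fun m hm => hne m (hK m hm)
    exact_mod_cast Nat.pos_of_ne_zero this
  have hpos : 0 < lcmBinomU P Q n k := div_pos (hlcm0 _ hI) (hlcm0 _ hK)
  have key : lcmBinomU P Q n k = |binomU P Q n k| ↔
      (∏ m ∈ Finset.Ioc (n - k) n, u m) * (Finset.Ioc 0 k).lcm u =
      (∏ m ∈ Finset.Ioc 0 k, u m) * (Finset.Ioc (n - k) n).lcm u := by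
    unfold lcmBinomU binomU
    rw [abs_div, habs, habs, div_eq_div_iff (hlcm0 _ hK).ne' hprodK.ne']
    change ((lcmOf P Q (Finset.Ioc (n - k) n) : ℕ) : ℚ) * ((∏ m ∈ Finset.Ioc 0 k, u m : ℕ) : ℚ) =
      ((∏ m ∈ Finset.Ioc (n - k) n, u m : ℕ) : ℚ) * ((lcmOf P Q (Finset.Ioc 0 k) : ℕ) : ℚ) ↔ _
    rw [← Nat.cast_mul, ← Nat.cast_mul, Nat.cast_inj]
    constructor
    · intro h
      rw [mul_comm (∏ m ∈ Finset.Ioc 0 k, u m)]
      exact h.symm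
    · intro h
      rw [mul_comm (lcmOf P Q (Finset.Ioc (n - k) n))]
      exact h.symm
  constructor
  · intro he
    have hb : 0 < binomU P Q n k := he ▸ hpos
    refine ⟨hb, ?_⟩
    rw [← abs_of_pos hb] at he
    exact hcrit.1 (key.1 he)
  · rintro ⟨hb, hc⟩
    rw [← abs_of_pos hb]
    exact key.2 (hcrit.2 hc)

end Pool.Agent.Results.MP_763eff_nt.EqualityCriterion
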